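import Pool.Agent.Run7.h738.ONX.Surg

set_option autoImplicit false

open scoped Classical

noncomputable section

namespace Pool.Agent.Run7.h738.ONX

open Pool.Agent.H737ON

/-- `S` is a set of pairs of vertices of the path in its last column `I`, at which there is room for
the surgery. -/
structure Ctx (D : Finset Ed) (a b : Vx) (ω : Finset Ed) (S : Finset (ℤ × ℤ)) (I : ℤ) : Prop where
  conf : IsConf D a b ω
  top : ∀ v, Reach ω a v → col v ≤ I
  lev : ∀ s ∈ S, s.1 - s.2 = I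
  rT : ∀ s ∈ S, Reach ω a (s.1, s.2, true)
  ne : ∀ s ∈ S, ∀ c, ((s.1, s.2, c) : Vx) ≠ a ∧ ((s.1, s.2, c) : Vx) ≠ b
  sub : ∀ s ∈ S, flower s ⊆ D

variable {D : Finset Ed} {a b : Vx} {ω : Finset Ed} {S : Finset (ℤ × ℤ)} {I : ℤ}

lemma reach_b (hc : IsConf D a b ω) : Reach ω a b := by
  by_cases h : a = b
  · subst h
    exact Relation.ReflTransGen.refl
  · exact t_HAND D a b ω h hc

lemma Ctx.topb (h : Ctx D a b ω S I) : col b ≤ I := h.top _ (reach_b h.conf)

lemma Ctx.topa (h : Ctx D a b ω S I) : col a ≤ I := h.top _ Relation.ReflTransGen.refl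

/-- vertices beyond the last column have degree 0 or 2 -/
lemma Ctx.ev (h : Ctx D a b ω S I) {v : Vx} (hv : I < col v) : deg ω v = 0 ∨ deg ω v = 2 := by
  refine h.conf.2.2 v ?_ ?_
  · rintro rfl
    exact absurd h.topa (not_le.2 hv)
  · rintro rfl
    exact absurd h.topb (not_le.2 hv)

lemma deg_ne_zero {v : Vx} (hr : Reach ω a v) (hv : v ≠ a) : deg ω v ≠ 0 := by
  rcases Relation.ReflTransGen.cases_tail hr with h | ⟨u, -, e, he, h⟩
  · exact absurd h hv
  · unfold deg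
    rw [Finset.card_ne_zero]
    refine ⟨e, Finset.mem_filter.2 ⟨he, ?_⟩⟩
    rcases h with h | h
    · exact Or.inr h.2
    · exact Or.inl h.1

lemma reach_step {u v : Vx} (h : Reach ω a u) (h2 : Adj ω u v) : Reach ω a v :=
  Relation.ReflTransGen.tail h h2

/-- the edges at the pairs of `S` -/
lemma Ctx.loc (h : Ctx D a b ω S I) {s : ℤ × ℤ} (hs : s ∈ S) :
    ((s.1, s.2, 0) : Ed) ∈ ω ∧ ((s.1, s.2, 1) : Ed) ∈ ω ∧ ((s.1, s.2, 2) : Ed) ∉ ω ∧
      ((s.1 + 1, s.2, 1) : Ed) ∉ ω ∧ Reach ω a (s.1, s.2, false) := by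
  have hr := h.rT s hs
  have hl := h.lev s hs
  have h2 : ((s.1, s.2, 2) : Ed) ∉ ω := fun hc => by
    have h3 := h.top _ (reach_step hr (adj2 hc))
    simp only [col] at h3
    omega
  have hd : deg ω (s.1, s.2, true) = 2 := by
    rcases h.conf.2.2 _ (h.ne s hs true).1 (h.ne s hs true).2 with h3 | h3
    · exact absurd h3 (deg_ne_zero hr (h.ne s hs true).1)
    · exact h3
  have h01 : ((s.1, s.2, 0) : Ed) ∈ ω ∧ ((s.1, s.2, 1) : Ed) ∈ ω := by
    rw [degT] at hd
    simp only [h2, if_false, add_zero] at hd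
    constructor
    · by_contra hc
      simp only [hc, if_false, zero_add] at hd
      split_ifs at hd <;> omega
    · by_contra hc
      simp only [hc, if_false, add_zero] at hd
      split_ifs at hd <;> omega
  have hF : Reach ω a (s.1, s.2, false) := reach_step hr (adj0 h01.1)
  refine ⟨h01.1, h01.2, h2, fun hc => ?_, hF⟩
  have h4 : Adj ω (s.1 + 1, s.2, true) (s.1 + 1 - 1, s.2, false) := adj1 hc
  rw [add_sub_cancel_right] at h4
  have h3 := h.top _ (reach_step hF (Lp.adj_symm h4))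
  simp only [col] at h3
  omega

/-- the columns of the flipped hexagons -/
lemma Ctx.lv (h : Ctx D a b ω S I) {p q : ℤ} (hh : Hx ω S p q) :
    I ≤ p - q ∧ (p - q = I → (p, q) ∈ S) := by
  rcases hh with h1 | ⟨h1, -⟩ | ⟨h1, -⟩ | ⟨h1, -⟩
  · have := h.lev _ h1
    simp only at this
    exact ⟨this.ge, fun _ => h1⟩
  · have := h.lev _ h1
    simp only at this
    exact ⟨by omega, fun h2 => by omega⟩
  · have := h.lev _ h1
    simp only at this
    exact ⟨by omega, fun h2 => by omega⟩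
  · have := h.lev _ h1
    simp only at this
    exact ⟨by omega, fun h2 => by omega⟩

lemma Ctx.H0 (h : Ctx D a b ω S I) {s : ℤ × ℤ} (hs : s ∈ S) : Hx ω S s.1 s.2 := Or.inl hs

lemma Ctx.H2 (h : Ctx D a b ω S I) {s : ℤ × ℤ} (hs : s ∈ S) :
    Hx ω S (s.1 + 1) s.2 ↔ ((s.1 + 1, s.2, 2) : Ed) ∈ ω := by
  have hl := h.lev s hs
  constructor
  · rintro (h1 | ⟨h1, h2⟩ | ⟨h1, h2⟩ | ⟨h1, h2⟩)
    · have := h.lev _ h1
      simp only at this
      omega
    · exact h2
    · have := h.lev _ h1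
      simp only at this
      omega
    · have e1 := (evT ω (s.1 + 1) s.2).1 (h.ev (by simp only [col]; omega))
      have e2 := (evF ω (s.1 + 1) s.2).1 (h.ev (by simp only [col]; omega))
      have h3 := (h.loc hs).2.2.2.1
      have h4 := (h.loc h1).2.2.1
      simp only at h4
      unfold Xor at e1 e2
      tauto
  · intro h1
    refine Or.inr (Or.inl ⟨?_, h1⟩)
    rw [add_sub_cancel_right]
    exact hs

lemma Ctx.H3 (h : Ctx D a b ω S I) {s : ℤ × ℤ} (hs : s ∈ S) :
    Hx ω S (s.1 + 1) (s.2 - 1) ↔ ((s.1 + 1, s.2 - 1, 0) : Ed) ∈ ω := by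
  have hl := h.lev s hs
  constructor
  · rintro (h1 | ⟨h1, h2⟩ | ⟨h1, h2⟩ | ⟨h1, h2⟩)
    · have := h.lev _ h1
      simp only at this
      omega
    · have := h.lev _ h1
      simp only at this
      omega
    · exact h2
    · have := h.lev _ h1
      simp only at this
      omega
  · intro h1
    refine Or.inr (Or.inr (Or.inl ⟨?_, h1⟩))
    rw [add_sub_cancel_right, sub_add_cancel]
    exact hs

lemma Ctx.H4 (h : Ctx D a b ω S I) {s : ℤ × ℤ} (hs : s ∈ S) :
    Hx ω S s.1 (s.2 - 1) ↔ ((s.1 + 1, s.2 - 1, 1) : Ed) ∈ ω := by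
  have hl := h.lev s hs
  constructor
  · rintro (h1 | ⟨h1, h2⟩ | ⟨h1, h2⟩ | ⟨h1, h2⟩)
    · have := h.lev _ h1
      simp only at this
      omega
    · have e1 := (evT ω s.1 (s.2 - 1)).1 (h.ev (by simp only [col]; omega))
      have e2 := (evF ω s.1 (s.2 - 1)).1 (h.ev (by simp only [col]; omega))
      have h3 := (h.loc hs).2.2.1
      have h4 := (h.loc h1).2.2.2.1
      simp only [sub_add_cancel] at h4 e2
      unfold Xor at e1 e2
      tauto
    · have := h.lev _ h1
      simp only at this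
      omega
    · exact h2
  · intro h1
    refine Or.inr (Or.inr (Or.inr ⟨?_, h1⟩))
    rw [sub_add_cancel]
    exact hs

/-- the edges of the flipped hexagons after the surgery -/
lemma Ctx.new (h : Ctx D a b ω S I) {s : ℤ × ℤ} (hs : s ∈ S) :
    ((s.1, s.2, 0) : Ed) ∉ Phi ω S ∧ ((s.1 + 1, s.2, 1) : Ed) ∈ Phi ω S ∧
      ((s.1 + 1, s.2, 2) : Ed) ∈ Phi ω S ∧ ((s.1 + 1, s.2 - 1, 0) : Ed) ∈ Phi ω S ∧
      ((s.1 + 1, s.2 - 1, 1) : Ed) ∈ Phi ω S ∧ ((s.1, s.2, 2) : Ed) ∈ Phi ω S := by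
  have hl := h.lev s hs
  obtain ⟨l0, l1, l2, l3, l4⟩ := h.loc hs
  have k0 := h.H0 hs
  have k2 := h.H2 hs
  have k3 := h.H3 hs
  have k4 := h.H4 hs
  have m1 : ¬ Hx ω S (s.1 - 1) (s.2 + 1) := fun hc => by have := (h.lv hc).1; omega
  have m2 : ¬ Hx ω S s.1 (s.2 + 1) := fun hc => by have := (h.lv hc).1; omega
  have m3 : ¬ Hx ω S (s.1 - 1) s.2 := fun hc => by have := (h.lv hc).1; omega
  simp only [mem_Phi, tog0, tog1, tog2, add_sub_cancel_right, sub_add_cancel]
  unfold Xor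
  tauto

/-- an edge at a vertex up to the last column is changed only if it is an edge of a hexagon of `S`
at one of its vertices in the last column -/
lemma Ctx.chT (h : Ctx D a b ω S I) {p q : ℤ} (hv : p - q ≤ I) :
    (tog (Hx ω S) ((p, q, 0) : Ed) → (p, q) ∈ S) ∧ ¬ tog (Hx ω S) ((p, q, 1) : Ed) ∧
      (tog (Hx ω S) ((p, q, 2) : Ed) → (p, q) ∈ S) := by
  have m1 : ¬ Hx ω S (p - 1) (q + 1) := fun hc => by have := (h.lv hc).1; omega
  have m3 : ¬ Hx ω S (p - 1) q := fun hc => by have := (h.lv hc).1; omega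
  have m4 : Hx ω S p q → (p, q) ∈ S := fun hc => by
    have := h.lv hc
    exact this.2 (by omega)
  rw [tog0, tog1, tog2]
  unfold Xor
  tauto

lemma Ctx.chF (h : Ctx D a b ω S I) {p q : ℤ} (hv : p - q ≤ I) :
    (tog (Hx ω S) ((p, q, 0) : Ed) → (p, q) ∈ S) ∧
      (tog (Hx ω S) ((p + 1, q, 1) : Ed) → (p, q) ∈ S) ∧
      ¬ tog (Hx ω S) ((p, q + 1, 2) : Ed) := by
  have m1 : ¬ Hx ω S (p - 1) (q + 1) := fun hc => by have := (h.lv hc).1; omega
  have m3 : ¬ Hx ω S p (q + 1) := fun hc => by have := (h.lv hc).1; omega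
  have m4 : Hx ω S p q → (p, q) ∈ S := fun hc => by
    have := h.lv hc
    exact this.2 (by omega)
  rw [tog0, tog1, tog2, add_sub_cancel_right]
  unfold Xor
  tauto

lemma xor_F (P : Prop) : Xor P False ↔ P := by
  unfold Xor
  tauto

/-- the surgery gives a configuration -/
lemma Ctx.confPhi (h : Ctx D a b ω S I) : IsConf D a b (Phi ω S) := by
  refine ⟨?_, ?_, fun v h1 h2 => ev_Phi ω S v (h.conf.2.2 v h1 h2)⟩
  · intro e he
    rw [mem_Phi] at he
    rcases he with ⟨he, -⟩ | ⟨he, -⟩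
    · exact h.conf.1 he
    · obtain ⟨s, hs, h1⟩ := tog_flower he
      exact h.sub s hs h1
  · intro v hv
    have hcol : col v ≤ I := by
      rcases hv with rfl | rfl
      · exact h.topa
      · exact h.topb
    have hne : (v.1, v.2.1) ∉ S := fun hc => by
      have := h.ne _ hc v.2.2
      rcases hv with rfl | rfl
      · exact this.1 rfl
      · exact this.2 rfl
    have hd := h.conf.2.1 v hv
    obtain ⟨p, q, c⟩ := v
    simp only [col] at hcol
    simp only at hne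
    cases c
    · obtain ⟨c0, c1, c2⟩ := h.chF hcol
      rw [degF] at hd ⊢
      have f0 : ¬ tog (Hx ω S) ((p, q, 0) : Ed) := fun hc => hne (c0 hc)
      have f1 : ¬ tog (Hx ω S) ((p + 1, q, 1) : Ed) := fun hc => hne (c1 hc)
      simp only [mem_Phi, f0, f1, c2, xor_F]
      exact hd
    · obtain ⟨c0, c1, c2⟩ := h.chT hcol
      rw [degT] at hd ⊢
      have f0 : ¬ tog (Hx ω S) ((p, q, 0) : Ed) := fun hc => hne (c0 hc)
      have f1 : ¬ tog (Hx ω S) ((p, q, 2) : Ed) := fun hc => hne (c2 hc)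
      simp only [mem_Phi, f0, f1, c1, xor_F]
      exact hd

end Pool.Agent.Run7.h738.ONX
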