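import Mathlib

set_option autoImplicit false

open scoped Classical

noncomputable section

namespace Pool.Agent.Run7.h738.ONX

/-- Generating function bound by multiple surgeries. -/
theorem gen_sum {α ι : Type} (Ω : Finset α) (w : α → ℝ) (E : α → Finset ι)
    (Φ : α → Finset ι → α) (cd : α → Finset ι → Finset (ι × Fin 3)) (K : ℝ) (hK : 1 ≤ K)
    (hw : ∀ ω ∈ Ω, 0 ≤ w ω)
    (h1 : ∀ ω ∈ Ω, ∀ S ⊆ E ω, S.Nonempty → Φ ω S ∈ Ω)
    (h2 : ∀ ω ∈ Ω, ∀ S ⊆ E ω, S.Nonempty → w ω ≤ K ^ S.card * w (Φ ω S))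
    (h3 : ∀ ω₁ ∈ Ω, ∀ ω₂ ∈ Ω, ∀ S₁ ⊆ E ω₁, ∀ S₂ ⊆ E ω₂, S₁.Nonempty → S₂.Nonempty →
      Φ ω₁ S₁ = Φ ω₂ S₂ → S₁ = S₂)
    (h4 : ∀ ω S, cd ω S ∈ (S ×ˢ (Finset.univ : Finset (Fin 3))).powerset)
    (h5 : ∀ ω₁ ω₂ S, cd ω₁ S = cd ω₂ S → Φ ω₁ S = Φ ω₂ S → ω₁ = ω₂) :
    ∑ ω ∈ Ω, w ω * (1 + 1 / (8 * K)) ^ (E ω).card ≤ 2 * ∑ ω ∈ Ω, w ω := by
  have hK0 : 0 < K := by linarith
  set A : Finset (Σ _ : α, Finset ι) := Ω.sigma fun ω => (E ω).powerset.erase ∅ with hA
  have memA : ∀ p : (Σ _ : α, Finset ι), p ∈ A ↔ p.1 ∈ Ω ∧ p.2 ⊆ E p.1 ∧ p.2.Nonempty := by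
    intro p
    rw [hA, Finset.mem_sigma, Finset.mem_erase, Finset.mem_powerset, Finset.nonempty_iff_ne_empty]
    tauto
  have e1 : ∀ ω, (1 + 1 / (8 * K)) ^ (E ω).card =
      1 + ∑ S ∈ (E ω).powerset.erase ∅, (1 / (8 * K)) ^ S.card := by
    intro ω
    have e2 := Finset.sum_pow_mul_eq_add_pow (1 / (8 * K)) 1 (E ω)
    simp only [one_pow, mul_one] at e2
    rw [add_comm, ← e2, ← Finset.add_sum_erase _ _ (Finset.empty_mem_powerset (E ω))]
    simp
  have e3 : ∑ ω ∈ Ω, w ω * (1 + 1 / (8 * K)) ^ (E ω).card =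
      ∑ ω ∈ Ω, w ω + ∑ p ∈ A, w p.1 * (1 / (8 * K)) ^ p.2.card := by
    rw [hA, Finset.sum_sigma, ← Finset.sum_add_distrib]
    refine Finset.sum_congr rfl fun ω _ => ?_
    rw [e1 ω, mul_add, mul_one, Finset.mul_sum]
  rw [e3, two_mul]
  refine add_le_add le_rfl ?_
  calc ∑ p ∈ A, w p.1 * (1 / (8 * K)) ^ p.2.card
      ≤ ∑ p ∈ A, (1 / 8 : ℝ) ^ p.2.card * w (Φ p.1 p.2) := by
        refine Finset.sum_le_sum fun p hp => ?_
        rw [memA] at hp
        have h := h2 p.1 hp.1 p.2 hp.2.1 hp.2.2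
        have hc : (0 : ℝ) ≤ (1 / (8 * K)) ^ p.2.card := by positivity
        calc w p.1 * (1 / (8 * K)) ^ p.2.card
            ≤ (K ^ p.2.card * w (Φ p.1 p.2)) * (1 / (8 * K)) ^ p.2.card :=
              mul_le_mul_of_nonneg_right h hc
          _ = (K * (1 / (8 * K))) ^ p.2.card * w (Φ p.1 p.2) := by
              rw [mul_pow]
              ring
          _ = _ := by
              congr 2
              field_simp
    _ = ∑ ω' ∈ Ω, ∑ p ∈ A.filter (fun p => Φ p.1 p.2 = ω'),
          (1 / 8 : ℝ) ^ p.2.card * w (Φ p.1 p.2) := by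
        refine (Finset.sum_fiberwise_of_maps_to (fun p hp => ?_) _).symm
        rw [memA] at hp
        exact h1 p.1 hp.1 p.2 hp.2.1 hp.2.2
    _ ≤ ∑ ω' ∈ Ω, w ω' := by
        refine Finset.sum_le_sum fun ω' hω' => ?_
        rcases (A.filter (fun p => Φ p.1 p.2 = ω')).eq_empty_or_nonempty with h | ⟨p0, hp0⟩
        · rw [h, Finset.sum_empty]
          exact hw ω' hω'
        · rw [Finset.mem_filter, memA] at hp0
          have key : ∀ p ∈ A.filter (fun p => Φ p.1 p.2 = ω'), p.2 = p0.2 := by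
            intro p hp
            rw [Finset.mem_filter, memA] at hp
            exact h3 p.1 hp.1.1 p0.1 hp0.1.1 p.2 hp.1.2.1 p0.2 hp0.1.2.1 hp.1.2.2 hp0.1.2.2
              (hp.2.trans hp0.2.symm)
          have e4 : ∑ p ∈ A.filter (fun p => Φ p.1 p.2 = ω'),
              (1 / 8 : ℝ) ^ p.2.card * w (Φ p.1 p.2) =
              (A.filter (fun p => Φ p.1 p.2 = ω')).card * ((1 / 8 : ℝ) ^ p0.2.card * w ω') := by
            rw [← nsmul_eq_mul, ← Finset.sum_const]
            refine Finset.sum_congr rfl fun p hp => ?_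
            rw [key p hp]
            congr 2
            rw [← key p hp]
            exact (Finset.mem_filter.1 hp).2
          have e5 : (A.filter (fun p => Φ p.1 p.2 = ω')).card ≤ 8 ^ p0.2.card := by
            calc (A.filter (fun p => Φ p.1 p.2 = ω')).card
                ≤ ((p0.2 ×ˢ (Finset.univ : Finset (Fin 3))).powerset).card := by
                  refine Finset.card_le_card_of_injOn (fun p => cd p.1 p0.2) (fun p _ => h4 _ _) ?_
                  intro p hp q hq hpq
                  have k1 := key p hp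
                  have k2 := key q hq
                  have k3 := (Finset.mem_filter.1 hp).2
                  have k4 := (Finset.mem_filter.1 hq).2
                  rw [k1] at k3
                  rw [k2] at k4
                  have k5 := h5 p.1 q.1 p0.2 hpq (k3.trans k4.symm)
                  obtain ⟨p1, p2⟩ := p
                  obtain ⟨q1, q2⟩ := q
                  simp only at k1 k2 k5
                  subst k1 k2 k5
                  rfl
              _ = 8 ^ p0.2.card := by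
                  rw [Finset.card_powerset, Finset.card_product, Finset.card_univ, Fintype.card_fin,
                    mul_comm, pow_mul]
                  norm_num
          rw [e4]
          have hw' := hw ω' hω'
          calc ((A.filter (fun p => Φ p.1 p.2 = ω')).card : ℝ) * ((1 / 8 : ℝ) ^ p0.2.card * w ω')
              ≤ ((8 ^ p0.2.card : ℕ) : ℝ) * ((1 / 8 : ℝ) ^ p0.2.card * w ω') :=
                mul_le_mul_of_nonneg_right (by exact_mod_cast e5) (by positivity)
            _ = (8 * (1 / 8 : ℝ)) ^ p0.2.card * w ω' := by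
                rw [mul_pow]
                push_cast
                ring
            _ = w ω' := by
                norm_num

end Pool.Agent.Run7.h738.ONX
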