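import Pool.Agent.Run7.h738.ONX.Wts
import Pool.Agent.Run7.h738.ONX.Sum

set_option autoImplicit false

open scoped Classical

noncomputable section

namespace Pool.Agent.Run7.h738.ONX

open Pool.Agent.H737ON

variable {D : Finset Ed} {a b : Vx} {ω : Finset Ed} {S : Finset (ℤ × ℤ)} {I : ℤ}

/-- the pairs of vertices of the path in its last column, with room for the surgery -/
def Es (D : Finset Ed) (a b : Vx) (ω : Finset Ed) : Finset (ℤ × ℤ) :=
  ((verts ω).image fun v => (v.1, v.2.1)).filter fun s =>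
    Reach ω a (s.1, s.2, true) ∧ (∀ v, Reach ω a v → col v ≤ s.1 - s.2) ∧
      (∀ c, ((s.1, s.2, c) : Vx) ≠ a ∧ ((s.1, s.2, c) : Vx) ≠ b) ∧ flower s ⊆ D

lemma ctx_of (hc : IsConf D a b ω) (hS : S ⊆ Es D a b ω) {s0 : ℤ × ℤ} (h0 : s0 ∈ S) :
    Ctx D a b ω S (s0.1 - s0.2) := by
  have h : ∀ s ∈ S, _ := fun s hs => (Finset.mem_filter.1 (hS hs)).2
  refine ⟨hc, (h s0 h0).2.1, fun s hs => ?_, fun s hs => (h s hs).1, fun s hs => (h s hs).2.2.1,
    fun s hs => (h s hs).2.2.2⟩
  have h1 := (h s hs).2.1 _ (h s0 h0).1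
  have h2 := (h s0 h0).2.1 _ (h s hs).1
  simp only [col] at h1 h2
  omega

/-- the generating function of the number of the pairs -/
theorem gf (n x : ℝ) (hn : 0 ≤ n) (hx : 0 < x) : ∃ K : ℝ, 1 ≤ K ∧ ∀ (D : Finset Ed) (a b : Vx),
    ∑ ω ∈ confs D a b, wt n x a ω * (1 + 1 / (8 * K)) ^ (Es D a b ω).card ≤
      2 * ∑ ω ∈ confs D a b, wt n x a ω := by
  obtain ⟨K, hK, h⟩ := wt_case n x hn hx
  refine ⟨K, hK, fun D a b => ?_⟩
  have hconf : ∀ ω ∈ confs D a b, IsConf D a b ω := fun ω hω => (Finset.mem_filter.1 hω).2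
  refine gen_sum (confs D a b) (wt n x a) (Es D a b) Phi code K hK ?_ ?_ ?_ ?_ code_sub
    (fun ω₁ ω₂ S => code_inj)
  · intro ω _
    unfold wt
    positivity
  · intro ω hω S hS hne
    obtain ⟨s0, h0⟩ := hne
    have := (ctx_of (hconf ω hω) hS h0).confPhi
    exact Finset.mem_filter.2 ⟨Finset.mem_powerset.2 this.1, this⟩
  · intro ω hω S hS hne
    obtain ⟨s0, h0⟩ := hne
    exact h D a b ω S _ (ctx_of (hconf ω hω) hS h0)
  · intro ω₁ hω₁ ω₂ hω₂ S₁ hS₁ S₂ hS₂ hn1 hn2 he
    obtain ⟨s1, h1⟩ := hn1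
    obtain ⟨s2, h2⟩ := hn2
    ext s
    rw [(ctx_of (hconf ω₁ hω₁) hS₁ h1).recov ⟨s1, h1⟩ s,
      (ctx_of (hconf ω₂ hω₂) hS₂ h2).recov ⟨s2, h2⟩ s, he]

/-- all edges whose coordinates differ by at most `3` from those of `v` are in `D` -/
def Deep (D : Finset Ed) (v : Vx) : Prop :=
  ∀ e : Ed, |e.1 - v.1| ≤ 3 → |e.2.1 - v.2.1| ≤ 3 → e ∈ D

/-- the vertices of the path in its last column which are `Deep` -/
def extremal (D : Finset Ed) (a : Vx) (ω : Finset Ed) : Finset Vx :=
  (verts ω).filter fun v => Reach ω a v ∧ (∀ w, Reach ω a w → col w ≤ col v) ∧ Deep D v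

lemma flower_near (s : ℤ × ℤ) : ∀ e ∈ flower s, |e.1 - s.1| ≤ 3 ∧ |e.2.1 - s.2| ≤ 3 := by
  intro e he
  unfold flower at he
  rw [Finset.mem_union, Finset.mem_biUnion] at he
  rcases he with he | ⟨k, -, he⟩
  · rw [mem_hex'] at he
    rcases he with rfl | rfl | rfl | rfl | rfl | rfl <;> (simp only [abs_le]; omega)
  · rw [mem_hex'] at he
    fin_cases k <;> simp only [nb, Fin.zero_eta, Fin.mk_one, Fin.reduceFinMk, Matrix.cons_val] at he <;>
      rcases he with rfl | rfl | rfl | rfl | rfl | rfl <;> (simp only [abs_le]; omega)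

lemma ext_sub (hc : IsConf D a b ω) : extremal D a ω ⊆
    ((Es D a b ω ∪ {(a.1, a.2.1), (b.1, b.2.1)}) ×ˢ (Finset.univ : Finset Bool)).image
      (fun p => ((p.1.1, p.1.2, p.2) : Vx)) := by
  intro v hv
  unfold extremal at hv
  rw [Finset.mem_filter] at hv
  obtain ⟨hv0, hr, ht, hd⟩ := hv
  rw [Finset.mem_image]
  refine ⟨((v.1, v.2.1), v.2.2), ?_, rfl⟩
  rw [Finset.mem_product]
  refine ⟨?_, Finset.mem_univ _⟩
  simp only
  by_cases hab : (v.1, v.2.1) = (a.1, a.2.1) ∨ (v.1, v.2.1) = (b.1, b.2.1)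
  · rw [Finset.mem_union]
    right
    rw [Finset.mem_insert, Finset.mem_singleton]
    exact hab
  · push Not at hab
    rw [Finset.mem_union]
    left
    have hne : ∀ c, ((v.1, v.2.1, c) : Vx) ≠ a ∧ ((v.1, v.2.1, c) : Vx) ≠ b := by
      intro c
      constructor
      · intro h
        apply hab.1
        rw [← h]
      · intro h
        apply hab.2
        rw [← h]
    unfold Es
    rw [Finset.mem_filter]
    refine ⟨Finset.mem_image.2 ⟨v, hv0, rfl⟩, ?_, ht, hne, ?_⟩
    · obtain ⟨p, q, c⟩ := v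
      cases c
      · simp only at hne hr ht ⊢
        have h1 : ((p + 1, q, 1) : Ed) ∉ ω := fun h => by
          have h4 : Adj ω (p + 1, q, true) (p + 1 - 1, q, false) := adj1 h
          rw [add_sub_cancel_right] at h4
          have h3 := ht _ (reach_step hr (Lp.adj_symm h4))
          simp only [col] at h3
          omega
        have hd2 : deg ω (p, q, false) = 2 := by
          rcases hc.2.2 _ (hne false).1 (hne false).2 with h3 | h3
          · exact absurd h3 (deg_ne_zero hr (hne false).1)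
          · exact h3
        rw [degF] at hd2
        simp only [h1, if_false, add_zero] at hd2
        have h0 : ((p, q, 0) : Ed) ∈ ω := by
          by_contra hcon
          simp only [hcon, if_false, zero_add] at hd2
          split_ifs at hd2 <;> omega
        exact reach_step hr (Lp.adj_symm (adj0 h0))
      · exact hr
    · intro e he
      have := flower_near _ e he
      exact hd e this.1 this.2

lemma ext_card (hc : IsConf D a b ω) : (extremal D a ω).card ≤ 2 * (Es D a b ω).card + 4 := by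
  have h1 := (Finset.card_le_card (ext_sub hc)).trans Finset.card_image_le
  rw [Finset.card_product] at h1
  have h2 := Finset.card_union_le (Es D a b ω) {(a.1, a.2.1), (b.1, b.2.1)}
  have h3 : ({(a.1, a.2.1), (b.1, b.2.1)} : Finset (ℤ × ℤ)).card ≤ 2 := Finset.card_le_two
  have h4 : (Finset.univ : Finset Bool).card = 2 := rfl
  rw [h4] at h1
  omega

/-- **The extreme column of the path of the O(n) model.** -/
theorem main (n x : ℝ) (hn : 0 ≤ n) (hx : 0 < x) : ∃ K : ℝ, 0 < K ∧
    ∀ (D : Finset Ed) (a b : Vx) (t : ℝ), 0 ≤ t →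
      Ex n x D a b (fun ω => if K * (1 + t) < ((extremal D a ω).card : ℝ) then 1 else 0) ≤
        Real.exp (-t) := by
  obtain ⟨K₀, hK₀, h⟩ := gf n x hn hx
  have hK0 : 0 < K₀ := by linarith
  set q : ℝ := 1 + 1 / (8 * K₀) with hq
  have hq1 : 1 < q := by
    rw [hq]
    have : 0 < 1 / (8 * K₀) := by positivity
    linarith
  have hlq : 0 < Real.log q := Real.log_pos hq1
  refine ⟨4 + 2 / Real.log q, by positivity, fun D a b t ht => ?_⟩
  unfold Ex
  have hw : ∀ ω ∈ confs D a b, 0 ≤ wt n x a ω := fun ω _ => by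
    unfold wt
    positivity
  have hZ : 0 ≤ ∑ ω ∈ confs D a b, wt n x a ω := Finset.sum_nonneg hw
  rcases hZ.eq_or_lt with hZ0 | hZ0
  · rw [← hZ0, div_zero]
    exact (Real.exp_pos _).le
  rw [div_le_iff₀ hZ0]
  have key : ∀ ω ∈ confs D a b,
      wt n x a ω * (if (4 + 2 / Real.log q) * (1 + t) < ((extremal D a ω).card : ℝ) then 1 else 0) ≤
        (Real.exp (-t) / 2) * (wt n x a ω * q ^ (Es D a b ω).card) := by
    intro ω hω
    have hwω := hw ω hω
    split_ifs with hlt
    · have hc : IsConf D a b ω := (Finset.mem_filter.1 hω).2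
      have h1 : ((extremal D a ω).card : ℝ) ≤ 2 * (Es D a b ω).card + 4 := by
        exact_mod_cast ext_card hc
      have h2 : (1 + t) / Real.log q ≤ ((Es D a b ω).card : ℝ) := by
        have h3 : (4 + 2 / Real.log q) * (1 + t) = 4 + 4 * t + 2 * ((1 + t) / Real.log q) := by
          ring
        linarith
      have h4 : 1 + t ≤ (Es D a b ω).card * Real.log q := by
        rwa [div_le_iff₀ hlq] at h2
      have h5 : Real.exp (1 + t) ≤ q ^ (Es D a b ω).card := by
        calc Real.exp (1 + t) ≤ Real.exp ((Es D a b ω).card * Real.log q) := Real.exp_le_exp.2 h4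
          _ = q ^ (Es D a b ω).card := by
            rw [Real.exp_nat_mul, Real.exp_log (by linarith)]
      have h6 : (2 : ℝ) ≤ Real.exp 1 := by
        have := Real.add_one_le_exp (1 : ℝ)
        linarith
      have h7 : 1 ≤ Real.exp (-t) / 2 * q ^ (Es D a b ω).card := by
        calc (1 : ℝ) ≤ Real.exp 1 / 2 := by linarith
          _ = Real.exp (-t) / 2 * Real.exp (1 + t) := by
            rw [Real.exp_add, Real.exp_neg]
            have := Real.exp_pos t
            field_simp
          _ ≤ _ := mul_le_mul_of_nonneg_left h5 (by positivity)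
      calc wt n x a ω * 1 ≤ wt n x a ω * (Real.exp (-t) / 2 * q ^ (Es D a b ω).card) :=
            mul_le_mul_of_nonneg_left h7 hwω
        _ = _ := by ring
    · rw [mul_zero]
      have : 0 ≤ q ^ (Es D a b ω).card := by positivity
      positivity
  calc ∑ ω ∈ confs D a b, wt n x a ω *
        (if (4 + 2 / Real.log q) * (1 + t) < ((extremal D a ω).card : ℝ) then 1 else 0)
      ≤ ∑ ω ∈ confs D a b, (Real.exp (-t) / 2) * (wt n x a ω * q ^ (Es D a b ω).card) :=
        Finset.sum_le_sum key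
    _ = (Real.exp (-t) / 2) * ∑ ω ∈ confs D a b, wt n x a ω * q ^ (Es D a b ω).card := by
        rw [Finset.mul_sum]
    _ ≤ (Real.exp (-t) / 2) * (2 * ∑ ω ∈ confs D a b, wt n x a ω) :=
        mul_le_mul_of_nonneg_left (h D a b) (by positivity)
    _ = _ := by ring

end Pool.Agent.Run7.h738.ONX
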