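import Pool.Agent.Run7.h738.ONX.Ctx

set_option autoImplicit false

open scoped Classical

noncomputable section

namespace Pool.Agent.Run7.h738.ONX

open Pool.Agent.H737ON

variable {D : Finset Ed} {a b : Vx} {ω : Finset Ed} {S : Finset (ℤ × ℤ)} {I : ℤ}

/-- the new vertices of the path -/
def New (S : Finset (ℤ × ℤ)) (v : Vx) : Prop :=
  ∃ s ∈ S, v = (s.1 + 1, s.2, true) ∨ v = (s.1 + 1, s.2 - 1, false) ∨
    v = (s.1 + 1, s.2 - 1, true) ∨ v = (s.1, s.2 - 1, false)

/-- the detour -/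
lemma Ctx.detour (h : Ctx D a b ω S I) {s : ℤ × ℤ} (hs : s ∈ S) :
    Adj (Phi ω S) (s.1, s.2, true) (s.1, s.2 - 1, false) ∧
      Adj (Phi ω S) (s.1 + 1, s.2 - 1, true) (s.1, s.2 - 1, false) ∧
      Adj (Phi ω S) (s.1 + 1, s.2 - 1, true) (s.1 + 1, s.2 - 1, false) ∧
      Adj (Phi ω S) (s.1 + 1, s.2, true) (s.1 + 1, s.2 - 1, false) ∧
      Adj (Phi ω S) (s.1 + 1, s.2, true) (s.1, s.2, false) := by
  obtain ⟨-, n1, n2, n3, n4, n5⟩ := h.new hs
  refine ⟨adj2 n5, ?_, adj0 n3, adj2 n2, ?_⟩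
  · have := adj1 n4
    rwa [add_sub_cancel_right] at this
  · have := adj1 n1
    rwa [add_sub_cancel_right] at this

lemma Ctx.detour' (h : Ctx D a b ω S I) {s : ℤ × ℤ} (hs : s ∈ S) :
    Reach (Phi ω S) (s.1, s.2, true) (s.1 + 1, s.2 - 1, false) ∧
      Reach (Phi ω S) (s.1, s.2, true) (s.1, s.2, false) ∧
      Reach (Phi ω S) (s.1, s.2, true) (s.1, s.2 - 1, false) ∧
      Reach (Phi ω S) (s.1, s.2, true) (s.1 + 1, s.2 - 1, true) ∧
      Reach (Phi ω S) (s.1, s.2, true) (s.1 + 1, s.2, true) := by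
  obtain ⟨d1, d2, d3, d4, d5⟩ := h.detour hs
  have r1 : Reach (Phi ω S) (s.1, s.2, true) (s.1, s.2 - 1, false) :=
    Relation.ReflTransGen.single d1
  have r2 := reach_step r1 (Lp.adj_symm d2)
  have r3 := reach_step r2 d3
  have r4 := reach_step r3 (Lp.adj_symm d4)
  exact ⟨r3, reach_step r4 d5, r1, r2, r4⟩

/-- the vertices of the path stay on the path -/
lemma Ctx.keep (h : Ctx D a b ω S I) {v : Vx} (hv : Reach ω a v) : Reach (Phi ω S) a v := by
  induction hv with
  | refl => exact Relation.ReflTransGen.refl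
  | @tail u w hu hw ih =>
    have hcol := h.top u hu
    obtain ⟨p, q, c⟩ := u
    simp only [col] at hcol
    cases c
    · obtain ⟨c0, c1, c2⟩ := h.chF hcol
      rcases of_adjF hw with ⟨he, rfl⟩ | ⟨he, rfl⟩ | ⟨he, rfl⟩
      · by_cases ht : tog (Hx ω S) ((p, q, 0) : Ed)
        · have := (h.detour' (c0 ht)).2.1
          exact ih.trans (Lp.reach_symm this)
        · exact reach_step ih (Lp.adj_symm (adj0 (mem_Phi.2 (Or.inl ⟨he, ht⟩))))
      · by_cases ht : tog (Hx ω S) ((p + 1, q, 1) : Ed)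
        · exact absurd he (h.loc (c1 ht)).2.2.2.1
        · have h4 : Adj (Phi ω S) (p + 1, q, true) (p + 1 - 1, q, false) :=
            adj1 (mem_Phi.2 (Or.inl ⟨he, ht⟩))
          rw [add_sub_cancel_right] at h4
          exact reach_step ih (Lp.adj_symm h4)
      · have h4 : Adj (Phi ω S) (p, q + 1, true) (p, q + 1 - 1, false) :=
          adj2 (mem_Phi.2 (Or.inl ⟨he, c2⟩))
        rw [add_sub_cancel_right] at h4
        exact reach_step ih (Lp.adj_symm h4)
    · obtain ⟨c0, c1, c2⟩ := h.chT hcol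
      rcases of_adjT hw with ⟨he, rfl⟩ | ⟨he, rfl⟩ | ⟨he, rfl⟩
      · by_cases ht : tog (Hx ω S) ((p, q, 0) : Ed)
        · exact ih.trans (h.detour' (c0 ht)).2.1
        · exact reach_step ih (adj0 (mem_Phi.2 (Or.inl ⟨he, ht⟩)))
      · exact reach_step ih (adj1 (mem_Phi.2 (Or.inl ⟨he, c1⟩)))
      · by_cases ht : tog (Hx ω S) ((p, q, 2) : Ed)
        · exact absurd he (h.loc (c2 ht)).2.2.1
        · exact reach_step ih (adj2 (mem_Phi.2 (Or.inl ⟨he, ht⟩)))

lemma third {A B C : Prop} (h : A ↔ Xor B C) (hB : B) (hC : C) : ¬ A := by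
  unfold Xor at h
  tauto

lemma third' {A B C : Prop} (h : A ↔ Xor B C) (hA : A) (hB : B) : ¬ C := by
  unfold Xor at h
  tauto

lemma third'' {A B C : Prop} (h : A ↔ Xor B C) (hA : A) (hC : C) : ¬ B := by
  unfold Xor at h
  tauto

/-- the vertices of the new path are those of the old one and the new vertices -/
lemma Ctx.only (h : Ctx D a b ω S I) {v : Vx} (hv : Reach (Phi ω S) a v) :
    Reach ω a v ∨ New S v := by
  induction hv with
  | refl => exact Or.inl Relation.ReflTransGen.refl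
  | @tail u w hu hw ih =>
    rcases ih with ih | ⟨s, hs, ih⟩
    · have hcol := h.top u ih
      obtain ⟨p, q, c⟩ := u
      simp only [col] at hcol
      cases c
      · obtain ⟨c0, c1, c2⟩ := h.chF hcol
        rcases of_adjF hw with ⟨he, rfl⟩ | ⟨he, rfl⟩ | ⟨he, rfl⟩
        · rcases mem_Phi.1 he with ⟨h1, -⟩ | ⟨ht, h1⟩
          · exact Or.inl (reach_step ih (Lp.adj_symm (adj0 h1)))
          · exact absurd (h.loc (c0 ht)).1 h1
        · rcases mem_Phi.1 he with ⟨h1, -⟩ | ⟨ht, h1⟩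
          · have h4 : Adj ω (p + 1, q, true) (p + 1 - 1, q, false) := adj1 h1
            rw [add_sub_cancel_right] at h4
            exact Or.inl (reach_step ih (Lp.adj_symm h4))
          · exact Or.inr ⟨_, c1 ht, Or.inl rfl⟩
        · rcases mem_Phi.1 he with ⟨h1, -⟩ | ⟨ht, h1⟩
          · have h4 : Adj ω (p, q + 1, true) (p, q + 1 - 1, false) := adj2 h1
            rw [add_sub_cancel_right] at h4
            exact Or.inl (reach_step ih (Lp.adj_symm h4))
          · exact absurd ht c2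
      · obtain ⟨c0, c1, c2⟩ := h.chT hcol
        rcases of_adjT hw with ⟨he, rfl⟩ | ⟨he, rfl⟩ | ⟨he, rfl⟩
        · rcases mem_Phi.1 he with ⟨h1, -⟩ | ⟨ht, h1⟩
          · exact Or.inl (reach_step ih (adj0 h1))
          · exact absurd (h.loc (c0 ht)).1 h1
        · rcases mem_Phi.1 he with ⟨h1, -⟩ | ⟨ht, h1⟩
          · exact Or.inl (reach_step ih (adj1 h1))
          · exact absurd ht c1
        · rcases mem_Phi.1 he with ⟨h1, -⟩ | ⟨ht, h1⟩
          · exact Or.inl (reach_step ih (adj2 h1))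
          · exact Or.inr ⟨_, c2 ht, Or.inr (Or.inr (Or.inr rfl))⟩
    · obtain ⟨-, n1, n2, n3, n4, n5⟩ := h.new hs
      have hl := h.lev s hs
      have ev' : ∀ v : Vx, I < col v → deg (Phi ω S) v = 0 ∨ deg (Phi ω S) v = 2 :=
        fun v hv => ev_Phi ω S v (h.ev hv)
      rcases ih with rfl | rfl | rfl | rfl
      · have e := (evT _ _ _).1 (ev' (s.1 + 1, s.2, true) (by simp only [col]; omega))
        rcases of_adjT hw with ⟨he, rfl⟩ | ⟨he, rfl⟩ | ⟨he, rfl⟩
        · exact absurd he (third e n1 n2)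
        · rw [add_sub_cancel_right]
          exact Or.inl (h.loc hs).2.2.2.2
        · exact Or.inr ⟨s, hs, Or.inr (Or.inl rfl)⟩
      · have e := (evF _ _ _).1 (ev' (s.1 + 1, s.2 - 1, false) (by simp only [col]; omega))
        rw [sub_add_cancel] at e
        rcases of_adjF hw with ⟨he, rfl⟩ | ⟨he, rfl⟩ | ⟨he, rfl⟩
        · exact Or.inr ⟨s, hs, Or.inr (Or.inr (Or.inl rfl))⟩
        · exact absurd he (third'' e n3 n2)
        · rw [sub_add_cancel]
          exact Or.inr ⟨s, hs, Or.inl rfl⟩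
      · have e := (evT _ _ _).1 (ev' (s.1 + 1, s.2 - 1, true) (by simp only [col]; omega))
        rcases of_adjT hw with ⟨he, rfl⟩ | ⟨he, rfl⟩ | ⟨he, rfl⟩
        · exact Or.inr ⟨s, hs, Or.inr (Or.inl rfl)⟩
        · rw [add_sub_cancel_right]
          exact Or.inr ⟨s, hs, Or.inr (Or.inr (Or.inr rfl))⟩
        · exact absurd he (third' e n3 n4)
      · have e := (evF _ _ _).1 (ev' (s.1, s.2 - 1, false) (by simp only [col]; omega))
        rw [sub_add_cancel] at e
        rcases of_adjF hw with ⟨he, rfl⟩ | ⟨he, rfl⟩ | ⟨he, rfl⟩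
        · exact absurd he (third e n4 n5)
        · exact Or.inr ⟨s, hs, Or.inr (Or.inr (Or.inl rfl))⟩
        · rw [sub_add_cancel]
          exact Or.inl (h.rT s hs)

/-- `S` can be recovered from the new configuration -/
lemma Ctx.recov (h : Ctx D a b ω S I) (hS : S.Nonempty) (s : ℤ × ℤ) : s ∈ S ↔
    (Reach (Phi ω S) a (s.1 + 1, s.2 - 1, false) ∧
      ∀ v, Reach (Phi ω S) a v → col v ≤ s.1 - s.2 + 2) := by
  constructor
  · intro hs
    have hl := h.lev s hs
    refine ⟨(h.keep (h.rT s hs)).trans (h.detour' hs).1, fun v hv => ?_⟩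
    rcases h.only hv with h1 | ⟨s', hs', h1⟩
    · have := h.top v h1
      omega
    · have hl' := h.lev s' hs'
      rcases h1 with rfl | rfl | rfl | rfl <;> (simp only [col]; omega)
  · rintro ⟨h1, h2⟩
    obtain ⟨s0, hs0⟩ := hS
    have hl0 := h.lev s0 hs0
    have h3 := h2 _ ((h.keep (h.rT s0 hs0)).trans (h.detour' hs0).1)
    simp only [col] at h3
    rcases h.only h1 with h4 | ⟨s', hs', h4⟩
    · have := h.top _ h4
      simp only [col] at this
      omega
    · have hl' := h.lev s' hs'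
      rcases h4 with h4 | h4 | h4 | h4
      · simp at h4
      · simp only [Prod.mk.injEq, and_true] at h4
        have e1 : s.1 = s'.1 := by omega
        have e2 : s.2 = s'.2 := by omega
        have : s = s' := Prod.ext e1 e2
        rw [this]
        exact hs'
      · simp at h4
      · simp only [Prod.mk.injEq, and_true] at h4
        omega

/-- the edges between the hexagon `s` and its outer neighbours -/
def ed (s : ℤ × ℤ) : Fin 3 → Ed :=
  ![(s.1 + 1, s.2, 2), (s.1 + 1, s.2 - 1, 0), (s.1 + 1, s.2 - 1, 1)]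

/-- the code: which outer neighbours are flipped -/
def code (ω : Finset Ed) (S : Finset (ℤ × ℤ)) : Finset ((ℤ × ℤ) × Fin 3) :=
  (S ×ˢ Finset.univ).filter fun q => ed q.1 q.2 ∈ ω

lemma code_Hx {ω₁ ω₂ : Finset Ed} (h : code ω₁ S = code ω₂ S) : Hx ω₁ S = Hx ω₂ S := by
  have key : ∀ s ∈ S, ∀ k, (ed s k ∈ ω₁ ↔ ed s k ∈ ω₂) := by
    intro s hs k
    have h1 : (s, k) ∈ code ω₁ S ↔ (s, k) ∈ code ω₂ S := by rw [h]
    simpa [code, hs] using h1
  funext p q
  refine propext ?_
  unfold Hx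
  refine or_congr Iff.rfl (or_congr ?_ (or_congr ?_ ?_))
  · refine and_congr_right fun h1 => ?_
    have := key _ h1 0
    simpa [ed] using this
  · refine and_congr_right fun h1 => ?_
    have := key _ h1 1
    simpa [ed] using this
  · refine and_congr_right fun h1 => ?_
    have := key _ h1 2
    simpa [ed] using this

/-- the configuration can be recovered from the new configuration and the code -/
lemma code_inj {ω₁ ω₂ : Finset Ed} (h : code ω₁ S = code ω₂ S) (h2 : Phi ω₁ S = Phi ω₂ S) :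
    ω₁ = ω₂ := by
  have hH := code_Hx h
  ext e
  have h3 : e ∈ Phi ω₁ S ↔ e ∈ Phi ω₂ S := by rw [h2]
  rw [mem_Phi, mem_Phi, hH] at h3
  unfold Xor at h3
  tauto

lemma code_sub (ω : Finset Ed) (S : Finset (ℤ × ℤ)) :
    code ω S ∈ (S ×ˢ (Finset.univ : Finset (Fin 3))).powerset :=
  Finset.mem_powerset.2 (Finset.filter_subset _ _)

end Pool.Agent.Run7.h738.ONX
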