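import Pool.Agent.Run7.h737.ON.WT
import Pool.Agent.Run7.h737.ON.LOOP
import Pool.Agent.Run7.h737.ON.HAND
import Pool.Agent.Run7.h737.ON.RER

/-!
# Surgery at the extreme column of the path of the O(n) model

The column of the vertex `v` is `v.1 - v.2.1`.  The vertices of the path in its last column form
pairs (end points of an edge `(i, j, 0)`), and the hexagon `(i, j)` is on the outer side of this
edge.  The surgery at a set `S` of such pairs flips these hexagons, and those of their three outer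
neighbours which are separated from them by an edge of the configuration.
-/

set_option autoImplicit false

open scoped Classical

noncomputable section

namespace Pool.Agent.Run7.h738.ONX

open Pool.Agent.H737ON

/-- the column of a vertex -/
abbrev col (v : Vx) : ℤ := v.1 - v.2.1

/-- the hexagons which are flipped -/
def Hx (ω : Finset Ed) (S : Finset (ℤ × ℤ)) (p q : ℤ) : Prop :=
  (p, q) ∈ S ∨ ((p - 1, q) ∈ S ∧ ((p, q, 2) : Ed) ∈ ω) ∨ ((p - 1, q + 1) ∈ S ∧ ((p, q, 0) : Ed) ∈ ω) ∨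
    ((p, q + 1) ∈ S ∧ ((p + 1, q, 1) : Ed) ∈ ω)

/-- the edges of the boundary of a set of hexagons -/
def tog (H : ℤ → ℤ → Prop) (e : Ed) : Prop :=
  (e.2.2 = 0 ∧ Xor (H e.1 e.2.1) (H (e.1 - 1) (e.2.1 + 1))) ∨
  (e.2.2 = 1 ∧ Xor (H (e.1 - 1) e.2.1) (H (e.1 - 1) (e.2.1 + 1))) ∨
  (e.2.2 = 2 ∧ Xor (H (e.1 - 1) e.2.1) (H e.1 e.2.1))

lemma tog0 (H : ℤ → ℤ → Prop) (p q : ℤ) :
    tog H ((p, q, 0) : Ed) ↔ Xor (H p q) (H (p - 1) (q + 1)) := by
  simp [tog]

lemma tog1 (H : ℤ → ℤ → Prop) (p q : ℤ) :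
    tog H ((p, q, 1) : Ed) ↔ Xor (H (p - 1) q) (H (p - 1) (q + 1)) := by
  simp [tog]

lemma tog2 (H : ℤ → ℤ → Prop) (p q : ℤ) :
    tog H ((p, q, 2) : Ed) ↔ Xor (H (p - 1) q) (H p q) := by
  simp [tog]

/-- the configuration after the surgery -/
def Phi (ω : Finset Ed) (S : Finset (ℤ × ℤ)) : Finset Ed :=
  (ω ∪ S.biUnion flower).filter fun e => Xor (e ∈ ω) (tog (Hx ω S) e)

lemma mem_hex' {t : ℤ × ℤ} {e : Ed} : e ∈ hex t ↔
    e = (t.1, t.2, 0) ∨ e = (t.1 + 1, t.2, 1) ∨ e = (t.1 + 1, t.2, 2) ∨ e = (t.1 + 1, t.2 - 1, 0) ∨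
      e = (t.1 + 1, t.2 - 1, 1) ∨ e = (t.1, t.2, 2) := by
  unfold hex
  rw [Finset.mem_image]
  constructor
  · rintro ⟨k, -, rfl⟩
    fin_cases k <;> simp [hx]
  · rintro (h | h | h | h | h | h)
    · exact ⟨0, Finset.mem_univ _, h.symm⟩
    · exact ⟨1, Finset.mem_univ _, h.symm⟩
    · exact ⟨2, Finset.mem_univ _, h.symm⟩
    · exact ⟨3, Finset.mem_univ _, h.symm⟩
    · exact ⟨4, Finset.mem_univ _, h.symm⟩
    · exact ⟨5, Finset.mem_univ _, h.symm⟩

lemma hex_sub (t : ℤ × ℤ) : hex t ⊆ flower t := Finset.subset_union_left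

lemma nb_sub (t : ℤ × ℤ) (k : Fin 6) : hex (nb t k) ⊆ flower t := by
  refine Finset.Subset.trans ?_ Finset.subset_union_right
  exact Finset.subset_biUnion_of_mem (fun k => hex (nb t k)) (Finset.mem_univ k)

/-- a flipped hexagon is in a flower -/
lemma Hx_flower {ω : Finset Ed} {S : Finset (ℤ × ℤ)} {p q : ℤ} (h : Hx ω S p q) :
    ∃ s ∈ S, hex (p, q) ⊆ flower s := by
  rcases h with h | ⟨h, -⟩ | ⟨h, -⟩ | ⟨h, -⟩
  · exact ⟨_, h, hex_sub _⟩
  · refine ⟨_, h, ?_⟩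
    have := nb_sub (p - 1, q) 2
    simpa [nb] using this
  · refine ⟨_, h, ?_⟩
    have := nb_sub (p - 1, q + 1) 3
    simpa [nb] using this
  · refine ⟨_, h, ?_⟩
    have := nb_sub (p, q + 1) 4
    simpa [nb] using this

/-- an edge of the boundary is in a hexagon of the set -/
lemma tog_hex {H : ℤ → ℤ → Prop} {e : Ed} (h : tog H e) : ∃ p q, H p q ∧ e ∈ hex (p, q) := by
  obtain ⟨p, q, c⟩ := e
  rcases h with ⟨h1, h2⟩ | ⟨h1, h2⟩ | ⟨h1, h2⟩
  · simp only at h1 h2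
    subst h1
    rcases h2 with ⟨h2, -⟩ | ⟨h2, -⟩
    · exact ⟨_, _, h2, mem_hex'.2 (by simp)⟩
    · exact ⟨_, _, h2, mem_hex'.2 (by simp)⟩
  · simp only at h1 h2
    subst h1
    rcases h2 with ⟨h2, -⟩ | ⟨h2, -⟩
    · exact ⟨_, _, h2, mem_hex'.2 (by simp)⟩
    · exact ⟨_, _, h2, mem_hex'.2 (by simp)⟩
  · simp only at h1 h2
    subst h1
    rcases h2 with ⟨h2, -⟩ | ⟨h2, -⟩
    · exact ⟨_, _, h2, mem_hex'.2 (by simp)⟩
    · exact ⟨_, _, h2, mem_hex'.2 (by simp)⟩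

lemma tog_flower {ω : Finset Ed} {S : Finset (ℤ × ℤ)} {e : Ed} (h : tog (Hx ω S) e) :
    ∃ s ∈ S, e ∈ flower s := by
  obtain ⟨p, q, h1, h2⟩ := tog_hex h
  obtain ⟨s, hs, h3⟩ := Hx_flower h1
  exact ⟨s, hs, h3 h2⟩

lemma mem_Phi {ω : Finset Ed} {S : Finset (ℤ × ℤ)} {e : Ed} :
    e ∈ Phi ω S ↔ Xor (e ∈ ω) (tog (Hx ω S) e) := by
  unfold Phi
  rw [Finset.mem_filter, Finset.mem_union, Finset.mem_biUnion]
  constructor
  · exact fun h => h.2
  · intro h
    refine ⟨?_, h⟩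
    rcases h with ⟨h, -⟩ | ⟨h, -⟩
    · exact Or.inl h
    · exact Or.inr (tog_flower h)

/-! ### degrees -/

lemma degT (ω : Finset Ed) (p q : ℤ) : deg ω (p, q, true) =
    (if ((p, q, 0) : Ed) ∈ ω then 1 else 0) + (if ((p, q, 1) : Ed) ∈ ω then 1 else 0) +
      (if ((p, q, 2) : Ed) ∈ ω then 1 else 0) := by
  have h1 : (ω.filter fun e => up e = (p, q, true) ∨ dn e = (p, q, true)) =
      ({(p, q, 0), (p, q, 1), (p, q, 2)} : Finset Ed).filter (· ∈ ω) := by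
    ext e
    rw [Finset.mem_filter, Finset.mem_filter, GEO.at_true, Finset.mem_insert, Finset.mem_insert,
      Finset.mem_singleton]
    tauto
  unfold deg
  rw [h1, Finset.card_filter, Finset.sum_insert, Finset.sum_insert, Finset.sum_singleton, add_assoc]
  · simp
  · simp

lemma degF (ω : Finset Ed) (p q : ℤ) : deg ω (p, q, false) =
    (if ((p, q, 0) : Ed) ∈ ω then 1 else 0) + (if ((p + 1, q, 1) : Ed) ∈ ω then 1 else 0) +
      (if ((p, q + 1, 2) : Ed) ∈ ω then 1 else 0) := by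
  have h1 : (ω.filter fun e => up e = (p, q, false) ∨ dn e = (p, q, false)) =
      ({(p, q, 0), (p + 1, q, 1), (p, q + 1, 2)} : Finset Ed).filter (· ∈ ω) := by
    ext e
    rw [Finset.mem_filter, Finset.mem_filter, GEO.at_false, Finset.mem_insert, Finset.mem_insert,
      Finset.mem_singleton]
    tauto
  unfold deg
  rw [h1, Finset.card_filter, Finset.sum_insert, Finset.sum_insert, Finset.sum_singleton, add_assoc]
  · simp
  · simp

lemma par3 (A B C : Prop) [Decidable A] [Decidable B] [Decidable C] :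
    (((if A then 1 else 0) + (if B then 1 else 0) + (if C then 1 else 0) : ℕ) = 0 ∨
      ((if A then 1 else 0) + (if B then 1 else 0) + (if C then 1 else 0) : ℕ) = 2) ↔
      (A ↔ Xor B C) := by
  by_cases hA : A <;> by_cases hB : B <;> by_cases hC : C <;> simp [hA, hB, hC, Xor]

lemma evT (ω : Finset Ed) (p q : ℤ) : (deg ω (p, q, true) = 0 ∨ deg ω (p, q, true) = 2) ↔
    (((p, q, 0) : Ed) ∈ ω ↔ Xor (((p, q, 1) : Ed) ∈ ω) (((p, q, 2) : Ed) ∈ ω)) := by
  rw [degT]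
  exact par3 _ _ _

lemma evF (ω : Finset Ed) (p q : ℤ) : (deg ω (p, q, false) = 0 ∨ deg ω (p, q, false) = 2) ↔
    (((p, q, 0) : Ed) ∈ ω ↔ Xor (((p + 1, q, 1) : Ed) ∈ ω) (((p, q + 1, 2) : Ed) ∈ ω)) := by
  rw [degF]
  exact par3 _ _ _

lemma xor6 {a b c x y z : Prop} (h : a ↔ Xor b c) :
    (Xor a (Xor x y)) ↔ Xor (Xor b (Xor z y)) (Xor c (Xor z x)) := by
  by_cases ha : a <;> by_cases hb : b <;> by_cases hc : c <;> by_cases hx : x <;>
    by_cases hy : y <;> by_cases hz : z <;> simp_all [Xor]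

lemma xor6' {a b c x y z : Prop} (h : a ↔ Xor b c) :
    (Xor a (Xor x y)) ↔ Xor (Xor b (Xor x z)) (Xor c (Xor y z)) := by
  by_cases ha : a <;> by_cases hb : b <;> by_cases hc : c <;> by_cases hx : x <;>
    by_cases hy : y <;> by_cases hz : z <;> simp_all [Xor]

/-- the surgery does not change the parity of the degrees -/
lemma ev_Phi (ω : Finset Ed) (S : Finset (ℤ × ℤ)) (v : Vx) (h : deg ω v = 0 ∨ deg ω v = 2) :
    deg (Phi ω S) v = 0 ∨ deg (Phi ω S) v = 2 := by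
  obtain ⟨p, q, c⟩ := v
  cases c
  · rw [evF] at h ⊢
    simp only [mem_Phi, tog0, tog1, tog2, add_sub_cancel_right]
    exact xor6' h
  · rw [evT] at h ⊢
    simp only [mem_Phi, tog0, tog1, tog2]
    exact xor6 h

/-! ### reachability -/

lemma up_adj {ω : Finset Ed} {e : Ed} (h : e ∈ ω) : Adj ω (up e) (dn e) :=
  ⟨e, h, Or.inl ⟨rfl, rfl⟩⟩

lemma adj0 {ω : Finset Ed} {p q : ℤ} (h : ((p, q, 0) : Ed) ∈ ω) :
    Adj ω (p, q, true) (p, q, false) := by
  have := up_adj h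
  simpa [up, dn, dx, dy] using this

lemma adj1 {ω : Finset Ed} {p q : ℤ} (h : ((p, q, 1) : Ed) ∈ ω) :
    Adj ω (p, q, true) (p - 1, q, false) := by
  have := up_adj h
  simpa [up, dn, dx, dy] using this

lemma adj2 {ω : Finset Ed} {p q : ℤ} (h : ((p, q, 2) : Ed) ∈ ω) :
    Adj ω (p, q, true) (p, q - 1, false) := by
  have := up_adj h
  simpa [up, dn, dx, dy] using this

/-- the neighbours of a vertex of colour `true` -/
lemma of_adjT {ω : Finset Ed} {p q : ℤ} {w : Vx} (h : Adj ω (p, q, true) w) :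
    (((p, q, 0) : Ed) ∈ ω ∧ w = (p, q, false)) ∨ (((p, q, 1) : Ed) ∈ ω ∧ w = (p - 1, q, false)) ∨
      (((p, q, 2) : Ed) ∈ ω ∧ w = (p, q - 1, false)) := by
  obtain ⟨⟨x, y, c⟩, he, h | h⟩ := h
  · obtain ⟨h1, h2⟩ := h
    simp only [up, Prod.mk.injEq] at h1
    obtain ⟨rfl, rfl, -⟩ := h1
    fin_cases c
    · left; refine ⟨he, ?_⟩; rw [← h2]; simp [dn, dx, dy]
    · right; left; refine ⟨he, ?_⟩; rw [← h2]; simp [dn, dx, dy]
    · right; right; refine ⟨he, ?_⟩; rw [← h2]; simp [dn, dx, dy]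
  · obtain ⟨h1, h2⟩ := h
    simp [dn] at h2

/-- the neighbours of a vertex of colour `false` -/
lemma of_adjF {ω : Finset Ed} {p q : ℤ} {w : Vx} (h : Adj ω (p, q, false) w) :
    (((p, q, 0) : Ed) ∈ ω ∧ w = (p, q, true)) ∨ (((p + 1, q, 1) : Ed) ∈ ω ∧ w = (p + 1, q, true)) ∨
      (((p, q + 1, 2) : Ed) ∈ ω ∧ w = (p, q + 1, true)) := by
  obtain ⟨⟨x, y, c⟩, he, h | h⟩ := h
  · obtain ⟨h1, h2⟩ := h
    simp [up] at h1
  · obtain ⟨h1, h2⟩ := h
    fin_cases c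
    · simp [dn, dx, dy] at h2
      obtain ⟨rfl, rfl⟩ := h2
      left; exact ⟨he, by rw [← h1]; simp [up]⟩
    · simp [dn, dx, dy] at h2
      obtain ⟨h2, rfl⟩ := h2
      obtain rfl : x = p + 1 := by omega
      right; left; exact ⟨he, by rw [← h1]; simp [up]⟩
    · simp [dn, dx, dy] at h2
      obtain ⟨rfl, h2⟩ := h2
      obtain rfl : y = q + 1 := by omega
      right; right; exact ⟨he, by rw [← h1]; simp [up]⟩

end Pool.Agent.Run7.h738.ONX
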