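import Pool.Agent.Run7.h738.ONX.Main

set_option autoImplicit false

open scoped Classical

noncomputable section

namespace Pool.Agent.Run7.h738.ONX

open Pool.Agent.H737ON

/-- automorphisms of the lattice which preserve the colours -/
structure Aut where
  g : Vx ≃ Vx
  ge : Ed ≃ Ed
  hu : ∀ e, up (ge e) = g (up e)
  hd : ∀ e, dn (ge e) = g (dn e)
  near : ∀ v e, |(ge e).1 - (g v).1| ≤ 3 → |(ge e).2.1 - (g v).2.1| ≤ 3 →
    |e.1 - v.1| ≤ 7 ∧ |e.2.1 - v.2.1| ≤ 7

/-- the image of a set of edges -/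
def Aut.im (A : Aut) (ω : Finset Ed) : Finset Ed := ω.map A.ge.toEmbedding

variable (A : Aut)

lemma Aut.mem_im {ω : Finset Ed} {e : Ed} : A.ge e ∈ A.im ω ↔ e ∈ ω := by
  unfold Aut.im
  rw [Finset.mem_map_equiv, Equiv.symm_apply_apply]

lemma Aut.adj {ω : Finset Ed} {u v : Vx} : Adj (A.im ω) (A.g u) (A.g v) ↔ Adj ω u v := by
  constructor
  · rintro ⟨e, he, h⟩
    obtain ⟨e, rfl⟩ := A.ge.surjective e
    rw [A.mem_im] at he
    rw [A.hu, A.hd] at h
    refine ⟨e, he, ?_⟩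
    rcases h with ⟨h1, h2⟩ | ⟨h1, h2⟩
    · exact Or.inl ⟨A.g.injective h1, A.g.injective h2⟩
    · exact Or.inr ⟨A.g.injective h1, A.g.injective h2⟩
  · rintro ⟨e, he, h⟩
    refine ⟨A.ge e, A.mem_im.2 he, ?_⟩
    rw [A.hu, A.hd]
    rcases h with ⟨rfl, rfl⟩ | ⟨rfl, rfl⟩
    · exact Or.inl ⟨rfl, rfl⟩
    · exact Or.inr ⟨rfl, rfl⟩

lemma Aut.reach {ω : Finset Ed} {u v : Vx} : Reach (A.im ω) (A.g u) (A.g v) ↔ Reach ω u v := by
  constructor
  · intro h
    have key : ∀ w, Reach (A.im ω) (A.g u) w → Reach ω u (A.g.symm w) := by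
      intro w hw
      induction hw with
      | refl =>
        rw [Equiv.symm_apply_apply]
        exact Relation.ReflTransGen.refl
      | @tail x y hx hxy ih =>
        obtain ⟨x, rfl⟩ := A.g.surjective x
        obtain ⟨y, rfl⟩ := A.g.surjective y
        rw [Equiv.symm_apply_apply] at ih ⊢
        exact reach_step ih (A.adj.1 hxy)
    have h2 := key _ h
    rwa [Equiv.symm_apply_apply] at h2
  · intro h
    induction h with
    | refl => exact Relation.ReflTransGen.refl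
    | tail hx hxy ih => exact reach_step ih (A.adj.2 hxy)

lemma Aut.deg (ω : Finset Ed) (v : Vx) : deg (A.im ω) (A.g v) = deg ω v := by
  have h : (A.im ω).filter (fun e => up e = A.g v ∨ dn e = A.g v) =
      (ω.filter fun e => up e = v ∨ dn e = v).map A.ge.toEmbedding := by
    ext e
    obtain ⟨e, rfl⟩ := A.ge.surjective e
    rw [Finset.mem_filter, A.mem_im, A.hu, A.hd, Finset.mem_map_equiv, Equiv.symm_apply_apply,
      Finset.mem_filter, A.g.injective.eq_iff, A.g.injective.eq_iff]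
  unfold H737ON.deg
  rw [h, Finset.card_map]

lemma Aut.mem_verts {ω : Finset Ed} {v : Vx} : A.g v ∈ verts (A.im ω) ↔ v ∈ verts ω := by
  rw [Lp.mem_verts, Lp.mem_verts]
  constructor
  · rintro ⟨e, he, h⟩
    obtain ⟨e, rfl⟩ := A.ge.surjective e
    rw [A.mem_im] at he
    rw [A.hu, A.hd, A.g.injective.eq_iff, A.g.injective.eq_iff] at h
    exact ⟨e, he, h⟩
  · rintro ⟨e, he, h⟩
    refine ⟨A.ge e, A.mem_im.2 he, ?_⟩
    rw [A.hu, A.hd, A.g.injective.eq_iff, A.g.injective.eq_iff]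
    exact h

lemma Aut.comp (ω : Finset Ed) (v : Vx) :
    comp (A.im ω) (A.g v) = (comp ω v).map A.g.toEmbedding := by
  ext w
  obtain ⟨w, rfl⟩ := A.g.surjective w
  rw [Lp.mem_comp, A.mem_verts, A.reach, Finset.mem_map_equiv, Equiv.symm_apply_apply, Lp.mem_comp]

lemma Aut.loops (a : Vx) (ω : Finset Ed) :
    (loops (A.g a) (A.im ω)).card = (loops a ω).card := by
  have h : H737ON.loops (A.g a) (A.im ω) =
      (H737ON.loops a ω).image fun K => K.map A.g.toEmbedding := by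
    ext K
    rw [Lp.mem_loops, Finset.mem_image]
    constructor
    · rintro ⟨v, h1, h2, h3⟩
      obtain ⟨v, rfl⟩ := A.g.surjective v
      rw [A.mem_verts] at h1
      rw [A.reach] at h2
      rw [A.comp] at h3
      exact ⟨_, Lp.mem_loops.2 ⟨v, h1, h2, rfl⟩, h3⟩
    · rintro ⟨K', h1, rfl⟩
      obtain ⟨v, k1, k2, rfl⟩ := Lp.mem_loops.1 h1
      refine ⟨A.g v, A.mem_verts.2 k1, ?_, A.comp ω v⟩
      rw [A.reach]
      exact k2
  rw [h, Finset.card_image_of_injective _ (Finset.map_injective _)]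

lemma Aut.wt (n x : ℝ) (a : Vx) (ω : Finset Ed) : wt n x (A.g a) (A.im ω) = wt n x a ω := by
  unfold H737ON.wt
  rw [A.loops]
  unfold Aut.im
  rw [Finset.card_map]

lemma Aut.isConf {D : Finset Ed} {a b : Vx} {ω : Finset Ed} :
    IsConf (A.im D) (A.g a) (A.g b) (A.im ω) ↔ IsConf D a b ω := by
  unfold IsConf
  refine and_congr ?_ (and_congr ?_ ?_)
  · unfold Aut.im
    rw [Finset.map_subset_map]
  · constructor
    · intro h v hv
      have := h (A.g v) (by rcases hv with rfl | rfl <;> [exact Or.inl rfl; exact Or.inr rfl])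
      rwa [A.deg] at this
    · intro h v hv
      obtain ⟨v, rfl⟩ := A.g.surjective v
      rw [A.deg]
      rw [A.g.injective.eq_iff, A.g.injective.eq_iff] at hv
      exact h v hv
  · constructor
    · intro h v h1 h2
      have := h (A.g v) (fun h3 => h1 (A.g.injective h3)) (fun h3 => h2 (A.g.injective h3))
      rwa [A.deg] at this
    · intro h v h1 h2
      obtain ⟨v, rfl⟩ := A.g.surjective v
      rw [A.deg]
      exact h v (fun h3 => h1 (by rw [h3])) (fun h3 => h2 (by rw [h3]))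

lemma Aut.im_inv (ω : Finset Ed) : A.im (ω.map A.ge.symm.toEmbedding) = ω := by
  ext e
  obtain ⟨e, rfl⟩ := A.ge.surjective e
  rw [A.mem_im, Finset.mem_map_equiv, Equiv.symm_symm]

lemma Aut.inv_im (ω : Finset Ed) : (A.im ω).map A.ge.symm.toEmbedding = ω := by
  ext e
  rw [Finset.mem_map_equiv, Equiv.symm_symm, A.mem_im]

lemma Aut.sum (D : Finset Ed) (a b : Vx) (F : Finset Ed → ℝ) :
    ∑ ω ∈ confs (A.im D) (A.g a) (A.g b), F ω = ∑ ω ∈ confs D a b, F (A.im ω) := by
  symm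
  have hm : ∀ (D : Finset Ed) (a b : Vx) (ω : Finset Ed), ω ∈ confs D a b ↔ IsConf D a b ω := by
    intro D a b ω
    unfold confs
    rw [Finset.mem_filter, Finset.mem_powerset]
    exact ⟨fun h => h.2, fun h => ⟨h.1, h⟩⟩
  refine Finset.sum_nbij' A.im (fun ω => ω.map A.ge.symm.toEmbedding) ?_ ?_ ?_ ?_ ?_
  · intro ω hω
    rw [hm] at hω ⊢
    exact A.isConf.2 hω
  · intro ω hω
    rw [hm] at hω ⊢
    rw [← A.im_inv ω] at hω
    exact A.isConf.1 hω
  · intro ω _
    exact A.inv_im ω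
  · intro ω _
    exact A.im_inv ω
  · intro ω _
    rfl

/-- all edges whose coordinates differ by at most `7` from those of `v` are in `D` -/
def Inside (D : Finset Ed) (v : Vx) : Prop :=
  ∀ e : Ed, |e.1 - v.1| ≤ 7 → |e.2.1 - v.2.1| ≤ 7 → e ∈ D

/-- the vertices of the path with the largest value of `φ` which are away from the boundary -/
def extreme (φ : Vx → ℤ) (D : Finset Ed) (a : Vx) (ω : Finset Ed) : Finset Vx :=
  (verts ω).filter fun v => Reach ω a v ∧ (∀ w, Reach ω a w → φ w ≤ φ v) ∧ Inside D v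

lemma Aut.ext_card (φ : Vx → ℤ) (hφ : ∀ v, φ v = col (A.g v)) (D : Finset Ed) (a : Vx)
    (ω : Finset Ed) : (extreme φ D a ω).card ≤ (extremal (A.im D) (A.g a) (A.im ω)).card := by
  rw [← Finset.card_map A.g.toEmbedding]
  refine Finset.card_le_card fun v hv => ?_
  obtain ⟨v, rfl⟩ := A.g.surjective v
  rw [Finset.mem_map_equiv, Equiv.symm_apply_apply] at hv
  unfold extreme at hv
  rw [Finset.mem_filter] at hv
  obtain ⟨h1, h2, h3, h4⟩ := hv
  unfold extremal
  rw [Finset.mem_filter]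
  refine ⟨A.mem_verts.2 h1, A.reach.2 h2, fun w hw => ?_, fun e h5 h6 => ?_⟩
  · obtain ⟨w, rfl⟩ := A.g.surjective w
    rw [← hφ, ← hφ]
    exact h3 w (A.reach.1 hw)
  · obtain ⟨e, rfl⟩ := A.ge.surjective e
    obtain ⟨h7, h8⟩ := A.near v e h5 h6
    exact A.mem_im.2 (h4 e h7 h8)

lemma Aut.final (φ : Vx → ℤ) (hφ : ∀ v, φ v = col (A.g v)) (n x : ℝ) (hn : 0 ≤ n) (hx : 0 < x)
    (D : Finset Ed) (a b : Vx) (K t : ℝ) :
    Ex n x D a b (fun ω => if K * (1 + t) < ((extreme φ D a ω).card : ℝ) then 1 else 0) ≤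
      Ex n x (A.im D) (A.g a) (A.g b)
        (fun ω => if K * (1 + t) < ((extremal (A.im D) (A.g a) ω).card : ℝ) then 1 else 0) := by
  unfold Ex
  rw [A.sum, A.sum]
  simp only [A.wt]
  have hw : ∀ ω, 0 ≤ H737ON.wt n x a ω := fun ω => by
    unfold H737ON.wt
    positivity
  refine div_le_div_of_nonneg_right ?_ (Finset.sum_nonneg fun ω _ => hw ω)
  refine Finset.sum_le_sum fun ω _ => mul_le_mul_of_nonneg_left ?_ (hw ω)
  have h : ((extreme φ D a ω).card : ℝ) ≤ (extremal (A.im D) (A.g a) (A.im ω)).card := by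
    exact_mod_cast A.ext_card φ hφ D a ω
  split_ifs with h1 h2 h2
  · exact le_rfl
  · exact absurd (h1.trans_le h) h2
  · exact zero_le_one
  · exact le_rfl

/-- the coordinate of the colour -/
def cc (v : Vx) : ℤ := if v.2.2 then 0 else 1

def A0 : Aut where
  g := Equiv.refl _
  ge := Equiv.refl _
  hu := fun _ => rfl
  hd := fun _ => rfl
  near := fun v e h1 h2 => by
    simp only [Equiv.refl_apply] at h1 h2
    exact ⟨h1.trans (by norm_num), h2.trans (by norm_num)⟩

/-- the rotation by 120 degrees -/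
def A1 : Aut where
  g := ⟨fun v => (-v.1 - v.2.1 - cc v, v.1, v.2.2), fun v => (v.2.1, -v.1 - v.2.1 - cc v, v.2.2),
    fun v => by
      obtain ⟨i, j, c⟩ := v
      cases c <;> simp [cc] <;> ring,
    fun v => by
      obtain ⟨i, j, c⟩ := v
      cases c <;> simp [cc] <;> ring⟩
  ge := ⟨fun e => (-e.1 - e.2.1, e.1, e.2.2 + 1), fun e => (e.2.1, -e.1 - e.2.1, e.2.2 - 1),
    fun e => by
      obtain ⟨i, j, c⟩ := e
      simp <;> ring,
    fun e => by
      obtain ⟨i, j, c⟩ := e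
      simp <;> ring⟩
  hu := fun e => by
    obtain ⟨i, j, c⟩ := e
    simp [up, cc]
  hd := fun e => by
    obtain ⟨i, j, c⟩ := e
    fin_cases c <;> simp [dn, cc, dx, dy] <;> ring
  near := fun v e h1 h2 => by
    obtain ⟨i, j, c⟩ := v
    obtain ⟨p, q, k⟩ := e
    cases c <;> simp [cc, abs_le] at h1 h2 ⊢ <;> omega

/-- the rotation by 240 degrees -/
def A2 : Aut where
  g := ⟨fun v => (v.2.1, -v.1 - v.2.1 - cc v, v.2.2), fun v => (-v.1 - v.2.1 - cc v, v.1, v.2.2),
    fun v => by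
      obtain ⟨i, j, c⟩ := v
      cases c <;> simp [cc] <;> ring,
    fun v => by
      obtain ⟨i, j, c⟩ := v
      cases c <;> simp [cc] <;> ring⟩
  ge := ⟨fun e => (e.2.1, -e.1 - e.2.1, e.2.2 - 1), fun e => (-e.1 - e.2.1, e.1, e.2.2 + 1),
    fun e => by
      obtain ⟨i, j, c⟩ := e
      simp <;> ring,
    fun e => by
      obtain ⟨i, j, c⟩ := e
      simp <;> ring⟩
  hu := fun e => by
    obtain ⟨i, j, c⟩ := e
    simp [up, cc]
  hd := fun e => by
    obtain ⟨i, j, c⟩ := e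
    fin_cases c <;> simp [dn, cc, dx, dy] <;> ring
  near := fun v e h1 h2 => by
    obtain ⟨i, j, c⟩ := v
    obtain ⟨p, q, k⟩ := e
    cases c <;> simp [cc, abs_le] at h1 h2 ⊢ <;> omega

/-- composition with the reflection -/
def Aut.refl (A : Aut) : Aut where
  g := (⟨fun v => (v.2.1, v.1, v.2.2), fun v => (v.2.1, v.1, v.2.2), fun _ => rfl, fun _ => rfl⟩ :
    Vx ≃ Vx).trans A.g
  ge := (⟨fun e => (e.2.1, e.1, -e.2.2), fun e => (e.2.1, e.1, -e.2.2), fun e => by simp,
    fun e => by simp⟩ : Ed ≃ Ed).trans A.ge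
  hu := fun e => by
    simp only [Equiv.trans_apply, Equiv.coe_fn_mk]
    rw [A.hu]
    rfl
  hd := fun e => by
    simp only [Equiv.trans_apply, Equiv.coe_fn_mk]
    rw [A.hd]
    congr 1
    obtain ⟨i, j, c⟩ := e
    fin_cases c <;> simp [dn, dx, dy]
  near := fun v e h1 h2 => by
    simp only [Equiv.trans_apply, Equiv.coe_fn_mk] at h1 h2
    exact (A.near _ _ h1 h2).symm

/-- The six directions orthogonal to the edges. -/
def dirs : Fin 6 → Vx → ℤ :=
  ![fun v => v.1 - v.2.1, fun v => -2 * v.1 - v.2.1 - cc v, fun v => v.1 + 2 * v.2.1 + cc v,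
    fun v => v.2.1 - v.1, fun v => -2 * v.2.1 - v.1 - cc v, fun v => v.2.1 + 2 * v.1 + cc v]

/-- **The extreme columns in the six directions.** -/
theorem main6 (n x : ℝ) (hn : 0 ≤ n) (hx : 0 < x) : ∃ K : ℝ, 0 < K ∧
    ∀ (k : Fin 6) (D : Finset Ed) (a b : Vx) (t : ℝ), 0 ≤ t →
      Ex n x D a b (fun ω => if K * (1 + t) < ((extreme (dirs k) D a ω).card : ℝ) then 1 else 0) ≤
        Real.exp (-t) := by
  obtain ⟨K, hK, h⟩ := main n x hn hx
  refine ⟨K, hK, fun k D a b t ht => ?_⟩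
  have fin : ∀ A : Aut, (∀ v, dirs k v = col (A.g v)) → _ := fun A hA =>
    (A.final (dirs k) hA n x hn hx D a b K t).trans (h _ _ _ t ht)
  fin_cases k
  · exact fin A0 fun v => rfl
  · refine fin A1 fun v => ?_
    obtain ⟨i, j, c⟩ := v
    simp [dirs, A1, cc, col]
    ring
  · refine fin A2 fun v => ?_
    obtain ⟨i, j, c⟩ := v
    simp [dirs, A2, cc, col]
    ring
  · exact fin A0.refl fun v => rfl
  · refine fin A1.refl fun v => ?_
    obtain ⟨i, j, c⟩ := v
    simp [dirs, A1, Aut.refl, cc, col]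
    ring
  · refine fin A2.refl fun v => ?_
    obtain ⟨i, j, c⟩ := v
    simp [dirs, A2, Aut.refl, cc, col]
    ring

end Pool.Agent.Run7.h738.ONX
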