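import Pool.Agent.Run7.h738.ONX.Rch

set_option autoImplicit false

open scoped Classical

noncomputable section

namespace Pool.Agent.Run7.h738.ONX

open Pool.Agent.H737ON

variable {D : Finset Ed} {a b : Vx} {ω : Finset Ed} {S : Finset (ℤ × ℤ)} {I : ℤ}

lemma Hx_insert {s : ℤ × ℤ} {p q : ℤ} {f : Ed} (hf : f ∈ hex (p, q)) (hfl : f ∉ flower s) :
    Hx ω (insert s S) p q ↔ Hx ω S p q := by
  have n0 : (p, q) ≠ s := by
    rintro rfl
    exact hfl (hex_sub _ hf)
  have n2 : (p - 1, q) ≠ s := by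
    rintro rfl
    refine hfl (nb_sub (p - 1, q) 2 ?_)
    simpa [nb] using hf
  have n3 : (p - 1, q + 1) ≠ s := by
    rintro rfl
    refine hfl (nb_sub (p - 1, q + 1) 3 ?_)
    simpa [nb] using hf
  have n4 : (p, q + 1) ≠ s := by
    rintro rfl
    refine hfl (nb_sub (p, q + 1) 4 ?_)
    simpa [nb] using hf
  unfold Hx
  simp only [Finset.mem_insert, n0, n2, n3, n4, false_or]

lemma Phi_insert (ω : Finset Ed) (S : Finset (ℤ × ℤ)) (s : ℤ × ℤ) (f : Ed) (hf : f ∉ flower s) :
    f ∈ Phi ω (insert s S) ↔ f ∈ Phi ω S := by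
  rw [mem_Phi, mem_Phi]
  have h : tog (Hx ω (insert s S)) f ↔ tog (Hx ω S) f := by
    obtain ⟨p, q, c⟩ := f
    fin_cases c
    · have h1 := Hx_insert (ω := ω) (S := S) (s := s) (p := p) (q := q) (f := (p, q, 0))
        (mem_hex'.2 (by simp)) hf
      have h2 := Hx_insert (ω := ω) (S := S) (s := s) (p := p - 1) (q := q + 1) (f := (p, q, 0))
        (mem_hex'.2 (by simp)) hf
      show tog _ ((p, q, 0) : Ed) ↔ tog _ ((p, q, 0) : Ed)
      rw [tog0, tog0, h1, h2]
    · have h1 := Hx_insert (ω := ω) (S := S) (s := s) (p := p - 1) (q := q) (f := (p, q, 1))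
        (mem_hex'.2 (by simp)) hf
      have h2 := Hx_insert (ω := ω) (S := S) (s := s) (p := p - 1) (q := q + 1) (f := (p, q, 1))
        (mem_hex'.2 (by simp)) hf
      show tog _ ((p, q, 1) : Ed) ↔ tog _ ((p, q, 1) : Ed)
      rw [tog1, tog1, h1, h2]
    · have h1 := Hx_insert (ω := ω) (S := S) (s := s) (p := p - 1) (q := q) (f := (p, q, 2))
        (mem_hex'.2 (by simp)) hf
      have h2 := Hx_insert (ω := ω) (S := S) (s := s) (p := p) (q := q) (f := (p, q, 2))
        (mem_hex'.2 (by simp)) hf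
      show tog _ ((p, q, 2) : Ed) ↔ tog _ ((p, q, 2) : Ed)
      rw [tog2, tog2, h1, h2]
  rw [h]

lemma Phi_empty (ω : Finset Ed) : Phi ω ∅ = ω := by
  have h0 : ∀ p q, ¬ Hx ω ∅ p q := by
    intro p q
    unfold Hx
    simp
  ext e
  rw [mem_Phi]
  have : ¬ tog (Hx ω ∅) e := fun h => by
    obtain ⟨p, q, h1, -⟩ := tog_hex h
    exact h0 p q h1
  simp only [this, xor_F]

lemma wt_pos_case (n x : ℝ) (hn : 0 < n) (hx : 0 < x) : ∃ K : ℝ, 1 ≤ K ∧
    ∀ (a : Vx) (ω : Finset Ed) (S : Finset (ℤ × ℤ)),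
      wt n x a ω ≤ K ^ S.card * wt n x a (Phi ω S) := by
  obtain ⟨K, hK, h⟩ := t_WT t_LOOP n x hn hx
  refine ⟨K, hK, fun a ω S => ?_⟩
  induction S using Finset.induction_on with
  | empty => simp [Phi_empty]
  | insert s S hs ih =>
    have h1 := h a s (Phi ω S) (Phi ω (insert s S)) (Phi_insert ω S s)
    rw [Finset.card_insert_of_notMem hs]
    calc wt n x a ω ≤ K ^ S.card * wt n x a (Phi ω S) := ih
      _ ≤ K ^ S.card * (K * wt n x a (Phi ω (insert s S))) :=
        mul_le_mul_of_nonneg_left h1 (by positivity)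
      _ = _ := by ring

lemma loops_empty_iff (a : Vx) (ω : Finset Ed) :
    loops a ω = ∅ ↔ ∀ v ∈ verts ω, Reach ω a v := by
  unfold loops
  rw [Finset.image_eq_empty, Finset.filter_eq_empty_iff]
  simp only [not_not]

lemma Ctx.noloops (h : Ctx D a b ω S I) (h0 : ∀ v ∈ verts ω, Reach ω a v) :
    ∀ v ∈ verts (Phi ω S), Reach (Phi ω S) a v := by
  have hup : ∀ e ∈ ω, Reach ω a (up e) := fun e he =>
    h0 _ (Lp.mem_verts.2 ⟨e, he, Or.inl rfl⟩)
  have key : ∀ e ∈ Phi ω S, Reach (Phi ω S) a (up e) := by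
    intro e he
    rcases mem_Phi.1 he with ⟨h1, -⟩ | ⟨ht, h1⟩
    · exact h.keep (hup e h1)
    · obtain ⟨p, q, h2, h3⟩ := tog_hex ht
      have hs : (p, q) ∈ S := by
        rcases h2 with h4 | ⟨h4, h5⟩ | ⟨h4, h5⟩ | ⟨h4, h5⟩
        · exact h4
        · have k1 := h.top _ (hup _ h5)
          have k2 := h.lev _ h4
          simp only [col, up] at k1 k2
          omega
        · have k1 := h.top _ (hup _ h5)
          have k2 := h.lev _ h4
          simp only [col, up] at k1 k2
          omega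
        · have k1 := h.top _ (hup _ h5)
          have k2 := h.lev _ h4
          simp only [col, up] at k1 k2
          omega
      have kT := h.keep (h.rT _ hs)
      obtain ⟨d1, d2, d3, d4, d5⟩ := h.detour' hs
      obtain ⟨n0, -⟩ := h.new hs
      simp only at kT d4 d5 n0
      rcases mem_hex'.1 h3 with rfl | rfl | rfl | rfl | rfl | rfl
      · exact absurd he n0
      · exact kT.trans d5
      · exact kT.trans d5
      · exact kT.trans d4
      · exact kT.trans d4
      · exact kT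
  intro v hv
  obtain ⟨e, he, h1⟩ := Lp.mem_verts.1 hv
  rcases h1 with rfl | rfl
  · exact key e he
  · exact reach_step (key e he) (up_adj he)

lemma wt_case (n x : ℝ) (hn : 0 ≤ n) (hx : 0 < x) : ∃ K : ℝ, 1 ≤ K ∧
    ∀ (D : Finset Ed) (a b : Vx) (ω : Finset Ed) (S : Finset (ℤ × ℤ)) (I : ℤ),
      Ctx D a b ω S I → wt n x a ω ≤ K ^ S.card * wt n x a (Phi ω S) := by
  rcases hn.eq_or_lt with rfl | hn
  · obtain ⟨K, hK, h⟩ := wt_pos_case 1 x one_pos hx
    refine ⟨K, hK, fun D a b ω S I hc => ?_⟩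
    by_cases hl : loops a ω = ∅
    · have hl' : loops a (Phi ω S) = ∅ :=
        (loops_empty_iff _ _).2 (hc.noloops ((loops_empty_iff _ _).1 hl))
      have := h a ω S
      unfold wt at this ⊢
      rw [hl, hl'] at this ⊢
      simpa using this
    · have : (loops a ω).card ≠ 0 := by
        rw [Ne, Finset.card_eq_zero]
        exact hl
      unfold wt
      rw [zero_pow this, mul_zero]
      positivity
  · obtain ⟨K, hK, h⟩ := wt_pos_case n x hn hx
    exact ⟨K, hK, fun D a b ω S I _ => h a ω S⟩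

end Pool.Agent.Run7.h738.ONX
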